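import Mathlib

/-!
Definitions for the cell problem `H(x, Dv) = c` on the torus, Mather measures and the
projected Mather set (nonconvex Hamiltonians).
-/

namespace Pool.Agent.R194.MM

open MeasureTheory Set Topology Gradient

/-- The momentum space and universal cover of the torus. -/
abbrev E (n : ℕ) := EuclideanSpace ℝ (Fin n)

/-- The flat torus `ℝ^n / ℤ^n`. -/
abbrev T (n : ℕ) := Fin n → UnitAddCircle

/-- The covering map `ℝ^n → T^n`. -/
def cov {n : ℕ} (y : E n) : T n := fun i => (y i : UnitAddCircle)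

theorem cov_surjective {n : ℕ} : Function.Surjective (cov : E n → T n) := by
  intro x
  choose f hf using fun i => QuotientAddGroup.mk_surjective (x i)
  exact ⟨WithLp.toLp 2 f, by funext i; exact hf i⟩

/-- A chosen lift of a point of the torus to `ℝ^n`. -/
noncomputable def rep {n : ℕ} (x : T n) : E n := Function.surjInv cov_surjective x

/-- `H ∈ C^2(T^n × ℝ^n)`. -/
def HamC2 {n : ℕ} (H : T n → E n → ℝ) : Prop :=
  ContDiff ℝ 2 (fun z : E n × E n => H (cov z.1) z.2)

/-- `φ ∈ C^2(T^n)`. -/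
def TorusC2 {n : ℕ} (φ : T n → ℝ) : Prop := ContDiff ℝ 2 (fun y : E n => φ (cov y))

/-- `D_p H(x, p) · e`. -/
noncomputable def DpH {n : ℕ} (H : T n → E n → ℝ) (x : T n) (p e : E n) : ℝ :=
  fderiv ℝ (fun r : E n => H x r) p e

/-- `D_x H(x, p) · e` at the point `x = cov y` of the torus. -/
noncomputable def DxH {n : ℕ} (H : T n → E n → ℝ) (y p e : E n) : ℝ :=
  fderiv ℝ (fun z : E n => H (cov z) p) y e

/-- The gradient `Dφ(x)` of a function on the torus. -/
noncomputable def gradT {n : ℕ} (φ : T n → ℝ) (x : T n) : E n :=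
  ∇ (fun y : E n => φ (cov y)) (rep x)

/-- (A1): `min_x (H(x,p)^2 / 2 + D_x H(x,p) · p) → +∞` as `|p| → ∞`. -/
def A1 {n : ℕ} (H : T n → E n → ℝ) : Prop :=
  ∀ C : ℝ, ∃ R : ℝ, ∀ y p : E n, R ≤ ‖p‖ → C ≤ 1 / 2 * H (cov y) p ^ 2 + DxH H y p p

/-- (A2): there is `θ > 0` with `D_p H(x,p) · p ≥ (θ + 1) H(x,p)` everywhere. -/
def A2 {n : ℕ} (H : T n → E n → ℝ) : Prop :=
  ∃ θ : ℝ, 0 < θ ∧ ∀ (x : T n) (p : E n), (θ + 1) * H x p ≤ DpH H x p p

/-- Viscosity subsolution of `H(x, Dv) = c` on the torus (continuous `v`, `C^1` test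
functions). -/
def IsSub {n : ℕ} (H : T n → E n → ℝ) (c : ℝ) (v : T n → ℝ) : Prop :=
  Continuous v ∧ ∀ (ψ : E n → ℝ) (y : E n), ContDiff ℝ 1 ψ →
    IsLocalMax (fun z => v (cov z) - ψ z) y → H (cov y) (∇ ψ y) ≤ c

/-- Viscosity supersolution of `H(x, Dv) = c` on the torus. -/
def IsSuper {n : ℕ} (H : T n → E n → ℝ) (c : ℝ) (v : T n → ℝ) : Prop :=
  Continuous v ∧ ∀ (ψ : E n → ℝ) (y : E n), ContDiff ℝ 1 ψ →
    IsLocalMin (fun z => v (cov z) - ψ z) y → c ≤ H (cov y) (∇ ψ y)

/-- Continuous viscosity solution of the cell problem `H(x, Dv) = c`. -/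
def IsSol {n : ℕ} (H : T n → E n → ℝ) (c : ℝ) (v : T n → ℝ) : Prop :=
  IsSub H c v ∧ IsSuper H c v

/-- Mather measures (at level `c`): probability measures on `T^n × ℝ^n` satisfying (a), (b),
(c), the integrals being finite. -/
structure IsMather {n : ℕ} (H : T n → E n → ℝ) (c : ℝ) (μ : Measure (T n × E n)) : Prop where
  prob : IsProbabilityMeasure μ
  level : ∀ᵐ z ∂μ, H z.1 z.2 = c
  int_action : Integrable (fun z : T n × E n => DpH H z.1 z.2 z.2) μ
  action : ∫ z : T n × E n, DpH H z.1 z.2 z.2 ∂μ = 0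
  int_closed : ∀ φ : T n → ℝ, TorusC2 φ →
    Integrable (fun z : T n × E n => DpH H z.1 z.2 (gradT φ z.1)) μ
  closed : ∀ φ : T n → ℝ, TorusC2 φ →
    ∫ z : T n × E n, DpH H z.1 z.2 (gradT φ z.1) ∂μ = 0

/-- The projected Mather set: closure of the union of the projections of the supports of all
Mather measures. -/
def projMather {n : ℕ} (H : T n → E n → ℝ) (c : ℝ) : Set (T n) :=
  closure (⋃ μ ∈ {μ : Measure (T n × E n) | IsMather H c μ}, Prod.fst '' μ.support)

/-! ### Basic facts on the covering map -/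

theorem cov_add {n : ℕ} (y z : E n) : cov (y + z) = cov y + cov z := by
  funext i; simp [cov]

theorem cov_sub {n : ℕ} (y z : E n) : cov (y - z) = cov y - cov z := by
  funext i; simp [cov]

theorem cov_zero {n : ℕ} : cov (0 : E n) = 0 := by
  funext i; simp [cov]

theorem cov_rep {n : ℕ} (x : T n) : cov (rep x) = x := Function.surjInv_eq cov_surjective x

theorem continuous_cov {n : ℕ} : Continuous (cov : E n → T n) := by
  refine continuous_pi fun i => ?_
  exact (AddCircle.continuous_mk' (1 : ℝ)).comp (by fun_prop : Continuous fun y : E n => y i)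

theorem isOpenQuotientMap_cov {n : ℕ} : IsOpenQuotientMap (cov : E n → T n) := by
  have h1 : IsOpenQuotientMap (Pi.map (fun (_ : Fin n) (t : ℝ) => (t : UnitAddCircle))) :=
    IsOpenQuotientMap.piMap (fun i => QuotientAddGroup.isOpenQuotientMap_mk)
  have h2 : IsOpenQuotientMap (fun y : E n => (fun i => y i : Fin n → ℝ)) :=
    (EuclideanSpace.equiv (Fin n) ℝ).toHomeomorph.isOpenQuotientMap
  exact h1.comp h2

/-- Continuity of functions on the torus (times a space) can be checked on the cover. -/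
theorem continuous_iff_cov {n : ℕ} {X Y : Type*} [TopologicalSpace X] [TopologicalSpace Y]
    {f : T n × X → Y} : Continuous f ↔ Continuous (fun z : E n × X => f (cov z.1, z.2)) := by
  have h : IsOpenQuotientMap (Prod.map (cov : E n → T n) (id : X → X)) :=
    isOpenQuotientMap_cov.prodMap IsOpenQuotientMap.id
  exact (h.continuous_comp_iff (g := f)).symm

theorem continuous_iff_cov' {n : ℕ} {Y : Type*} [TopologicalSpace Y]
    {f : T n → Y} : Continuous f ↔ Continuous (fun z : E n => f (cov z)) :=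
  (isOpenQuotientMap_cov.continuous_comp_iff (g := f)).symm

end Pool.Agent.R194.MM
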