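import Mathlib
import Pool.Agent.R194.MM.Defs

namespace Pool.Agent.R194.MM

open MeasureTheory Set Topology Gradient Filter

variable {n : ℕ}

theorem gradT_cov (φ : T n → ℝ) (y : E n) : gradT φ (cov y) = ∇ (fun z : E n => φ (cov z)) y := by
  unfold gradT gradient
  congr 1
  set k : E n := rep (cov y) - y with hk
  have hk0 : cov k = 0 := by rw [hk, cov_sub, cov_rep, sub_self]
  have h1 : (fun z : E n => φ (cov z)) = fun z => φ (cov (z + k)) := by
    funext z; rw [cov_add, hk0, add_zero]
  have h2 : rep (cov y) = y + k := by rw [hk]; abel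
  rw [h2]
  conv_rhs => rw [h1]
  exact (fderiv_comp_add_right (f := fun z : E n => φ (cov z)) k).symm

theorem gradT_add {φ ψ : T n → ℝ} (hφ : TorusC2 φ) (hψ : TorusC2 ψ) (x : T n) :
    gradT (fun t => φ t + ψ t) x = gradT φ x + gradT ψ x := by
  unfold gradT gradient
  have h1 : DifferentiableAt ℝ (fun y : E n => φ (cov y)) (rep x) :=
    (hφ.differentiable (by norm_num)) _
  have h2 : DifferentiableAt ℝ (fun y : E n => ψ (cov y)) (rep x) :=
    (hψ.differentiable (by norm_num)) _
  rw [fderiv_fun_add h1 h2, map_add]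

theorem gradT_smul {φ : T n → ℝ} (hφ : TorusC2 φ) (c : ℝ) (x : T n) :
    gradT (fun t => c * φ t) x = c • gradT φ x := by
  unfold gradT gradient
  have h1 : DifferentiableAt ℝ (fun y : E n => φ (cov y)) (rep x) :=
    (hφ.differentiable (by norm_num)) _
  rw [fderiv_const_mul h1]
  rw [map_smulₛₗ]
  simp

theorem TorusC2.add {φ ψ : T n → ℝ} (hφ : TorusC2 φ) (hψ : TorusC2 ψ) :
    TorusC2 (fun t => φ t + ψ t) := ContDiff.add hφ hψ

theorem TorusC2.smul {φ : T n → ℝ} (hφ : TorusC2 φ) (c : ℝ) :
    TorusC2 (fun t => c * φ t) := ContDiff.mul contDiff_const hφ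

theorem TorusC2.zero : TorusC2 (fun _ : T n => (0 : ℝ)) := contDiff_const

theorem TorusC2.continuous {φ : T n → ℝ} (hφ : TorusC2 φ) : Continuous φ :=
  continuous_iff_cov'.2 (ContDiff.continuous hφ)

theorem continuous_gradT {φ : T n → ℝ} (hφ : TorusC2 φ) : Continuous (gradT φ) := by
  rw [continuous_iff_cov']
  have : (fun z : E n => gradT φ (cov z)) = fun z => ∇ (fun z : E n => φ (cov z)) z := by
    funext z; exact gradT_cov φ z
  rw [this]
  unfold gradient
  have h1 : Continuous (fderiv ℝ (fun z : E n => φ (cov z))) :=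
    ContDiff.continuous_fderiv hφ (by norm_num)
  exact (LinearIsometryEquiv.continuous _).comp h1

section Ham

variable {H : T n → E n → ℝ} (hH : HamC2 H)
include hH

theorem continuous_H : Continuous (fun z : T n × E n => H z.1 z.2) := by
  rw [continuous_iff_cov]
  exact ContDiff.continuous hH

theorem differentiable_Hp (x : T n) : Differentiable ℝ (fun r : E n => H x r) := by
  obtain ⟨y, rfl⟩ := cov_surjective x
  have h : ContDiff ℝ 2 (fun r : E n => (fun z : E n × E n => H (cov z.1) z.2) (y, r)) :=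
    hH.comp (contDiff_const.prodMk contDiff_id)
  exact h.differentiable (by norm_num)

theorem DpH_cov (y p e : E n) :
    DpH H (cov y) p e = fderiv ℝ (fun z : E n × E n => H (cov z.1) z.2) (y, p) (0, e) := by
  unfold DpH
  have h1 : HasFDerivAt (fun z : E n × E n => H (cov z.1) z.2)
      (fderiv ℝ (fun z : E n × E n => H (cov z.1) z.2) (y, p)) (y, p) :=
    ((hH.differentiable (by norm_num)) _).hasFDerivAt
  have h2 : HasFDerivAt (fun r : E n => ((y, r) : E n × E n))
      ((0 : E n →L[ℝ] E n).prod (ContinuousLinearMap.id ℝ (E n))) p :=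
    (hasFDerivAt_const y p).prodMk (hasFDerivAt_id p)
  have h3 := HasFDerivAt.comp p h1 h2
  have h4 : (fun z : E n × E n => H (cov z.1) z.2) ∘ (fun r : E n => ((y, r) : E n × E n))
      = fun r => H (cov y) r := rfl
  rw [h4] at h3
  rw [h3.fderiv]
  simp

theorem DxH_eq (y p e : E n) :
    DxH H y p e = fderiv ℝ (fun z : E n × E n => H (cov z.1) z.2) (y, p) (e, 0) := by
  unfold DxH
  have h1 : HasFDerivAt (fun z : E n × E n => H (cov z.1) z.2)
      (fderiv ℝ (fun z : E n × E n => H (cov z.1) z.2) (y, p)) (y, p) :=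
    ((hH.differentiable (by norm_num)) _).hasFDerivAt
  have h2 : HasFDerivAt (fun r : E n => ((r, p) : E n × E n))
      ((ContinuousLinearMap.id ℝ (E n)).prod (0 : E n →L[ℝ] E n)) y :=
    (hasFDerivAt_id y).prodMk (hasFDerivAt_const p y)
  have h3 := HasFDerivAt.comp y h1 h2
  have h4 : (fun z : E n × E n => H (cov z.1) z.2) ∘ (fun r : E n => ((r, p) : E n × E n))
      = fun r => H (cov r) p := rfl
  rw [h4] at h3
  rw [h3.fderiv]
  simp

theorem continuous_DpH :
    Continuous (fun z : T n × (E n × E n) => DpH H z.1 z.2.1 z.2.2) := by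
  rw [continuous_iff_cov (f := fun z : T n × (E n × E n) => DpH H z.1 z.2.1 z.2.2)]
  have : (fun z : E n × (E n × E n) => DpH H (cov z.1) z.2.1 z.2.2) = fun z =>
      fderiv ℝ (fun z : E n × E n => H (cov z.1) z.2) (z.1, z.2.1) (0, z.2.2) := by
    funext z; exact DpH_cov hH _ _ _
  simp only
  rw [this]
  have h1 : Continuous (fderiv ℝ (fun z : E n × E n => H (cov z.1) z.2)) :=
    ContDiff.continuous_fderiv hH (by norm_num)
  have h2 : Continuous (fun z : E n × (E n × E n) => (z.1, z.2.1)) := by fun_prop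
  exact (h1.comp h2).clm_apply (by fun_prop)

theorem hasDerivAt_Hp_line (x : T n) (p e : E n) (t : ℝ) :
    HasDerivAt (fun t : ℝ => H x (p + t • e)) (DpH H x (p + t • e) e) t := by
  have h1 : HasFDerivAt (fun r : E n => H x r) (fderiv ℝ (fun r : E n => H x r) (p + t • e))
      (p + t • e) := ((differentiable_Hp hH x) _).hasFDerivAt
  have h2 : HasDerivAt (fun t : ℝ => p + t • e) e t := by
    simpa using ((hasDerivAt_id t).smul_const e).const_add p
  exact h1.comp_hasDerivAt t h2

theorem hasDerivAt_Hx_line (y p e : E n) (t : ℝ) :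
    HasDerivAt (fun t : ℝ => H (cov (y + t • e)) p) (DxH H (y + t • e) p e) t := by
  have h0 : ContDiff ℝ 2 (fun r : E n => (fun z : E n × E n => H (cov z.1) z.2) (r, p)) :=
    hH.comp (contDiff_id.prodMk contDiff_const)
  have h1 : HasFDerivAt (fun r : E n => H (cov r) p)
      (fderiv ℝ (fun r : E n => H (cov r) p) (y + t • e)) (y + t • e) :=
    ((h0.differentiable (by norm_num)) _).hasFDerivAt
  have h2 : HasDerivAt (fun t : ℝ => y + t • e) e t := by
    simpa using ((hasDerivAt_id t).smul_const e).const_add y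
  exact h1.comp_hasDerivAt t h2

/-- Mean value theorem in `p`. -/
theorem mvt_p (x : T n) (p r : E n) :
    ∃ t ∈ Icc (0 : ℝ) 1, H x r - H x p = DpH H x (p + t • (r - p)) (r - p) := by
  obtain ⟨t, ht, h⟩ := exists_hasDerivAt_eq_slope (fun t : ℝ => H x (p + t • (r - p)))
    (fun t => DpH H x (p + t • (r - p)) (r - p)) (zero_lt_one)
    (fun t _ => (hasDerivAt_Hp_line hH x p (r - p) t).continuousAt.continuousWithinAt)
    (fun t _ => hasDerivAt_Hp_line hH x p (r - p) t)
  refine ⟨t, ⟨ht.1.le, ht.2.le⟩, ?_⟩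
  rw [h]
  simp

end Ham

end Pool.Agent.R194.MM
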