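import Mathlib
import Pool.Agent.R194.MM.Basic

namespace Pool.Agent.R194.MM

open MeasureTheory Set Topology Gradient Filter

variable {n : ℕ}

/-- A differentiable function whose derivative is positive at each of its zeros, vanishing at
`0`, is positive on `(0, ∞)`. -/
theorem pos_of_deriv_pos_at_zeros {h h' : ℝ → ℝ} (hd : ∀ t, HasDerivAt h (h' t) t)
    (hz : ∀ t, h t = 0 → 0 < h' t) (h0 : h 0 = 0) : ∀ t, 0 < t → 0 < h t := by
  have hc : Continuous h := continuous_iff_continuousAt.2 fun t => (hd t).continuousAt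
  -- local: positive derivative at a zero
  have hloc : ∀ t, h t = 0 → ∃ ε > 0, (∀ s, t < s → s < t + ε → 0 < h s) ∧
      (∀ s, t - ε < s → s < t → h s < 0) := by
    intro t ht
    have h1 := (hd t)
    have h2 : ∀ᶠ s in 𝓝[≠] t, 0 < slope h t s :=
      (hasDerivAt_iff_tendsto_slope.1 h1).eventually (lt_mem_nhds (hz t ht))
    rw [eventually_nhdsWithin_iff] at h2
    obtain ⟨ε, hε, hball⟩ := Metric.eventually_nhds_iff.1 h2
    refine ⟨ε, hε, ?_, ?_⟩
    · intro s hs1 hs2
      have h3 := hball (y := s) (by rw [Real.dist_eq, abs_of_pos (by linarith)]; linarith)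
        (by simp; linarith)
      rw [slope_def_field, ht, sub_zero] at h3
      have h4 : 0 < s - t := by linarith
      exact (div_pos_iff_of_pos_right h4).1 h3
    · intro s hs1 hs2
      have h3 := hball (y := s) (by rw [Real.dist_eq, abs_of_neg (by linarith)]; linarith)
        (by simp; linarith)
      rw [slope_def_field, ht, sub_zero] at h3
      have h4 : s - t < 0 := by linarith
      by_contra hcon
      push Not at hcon
      have := div_nonpos_of_nonneg_of_nonpos hcon h4.le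
      linarith
  intro t1 ht1
  by_contra hcon
  push Not at hcon
  obtain ⟨ε, hε, hε1, -⟩ := hloc 0 h0
  rw [zero_add] at hε1
  have hεt : ε ≤ t1 := by
    by_contra hlt
    push Not at hlt
    have := hε1 t1 ht1 hlt
    linarith
  set Z : Set ℝ := {t | t ∈ Icc (ε / 2) t1 ∧ h t ≤ 0} with hZ
  have hZc : IsCompact Z := by
    have : Z = Icc (ε / 2) t1 ∩ {t | h t ≤ 0} := rfl
    rw [this]
    exact isCompact_Icc.inter_right (isClosed_le hc continuous_const)
  have hZne : Z.Nonempty := ⟨t1, ⟨by linarith, le_refl _⟩, hcon⟩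
  obtain ⟨ts, hts, hmin⟩ := hZc.exists_isLeast hZne
  have hpos : ∀ s, 0 < s → s < ts → 0 < h s := by
    intro s hs1 hs2
    by_cases hs3 : s < ε
    · exact hε1 s hs1 hs3
    · push Not at hs3
      by_contra hcon2
      push Not at hcon2
      have : s ∈ Z := ⟨⟨by linarith, by linarith [hts.1.2]⟩, hcon2⟩
      have := hmin this
      linarith
  have hts0 : 0 < ts := by linarith [hts.1.1]
  have hge : 0 ≤ h ts := by
    have h1 : Tendsto h (𝓝[<] ts) (𝓝 (h ts)) := (hc.tendsto ts).mono_left nhdsWithin_le_nhds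
    refine ge_of_tendsto h1 ?_
    have h2 : Ioo 0 ts ∈ 𝓝[<] ts := Ioo_mem_nhdsLT hts0
    filter_upwards [h2] with s hs
    exact (hpos s hs.1 hs.2).le
  have hzero : h ts = 0 := le_antisymm hts.2 hge
  obtain ⟨ε2, hε2, -, hneg⟩ := hloc ts hzero
  have hm : 0 < min ts ε2 := lt_min hts0 hε2
  have h3 := hneg (ts - min ts ε2 / 2) (by linarith [min_le_right ts ε2]) (by linarith)
  have h4 := hpos (ts - min ts ε2 / 2) (by linarith [min_le_left ts ε2]) (by linarith)
  linarith

/-- Recurrence of the translation by `p` on the torus. -/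
theorem recur (p : E n) {η : ℝ} (hη : 0 < η) : ∃ m : ℕ, 1 ≤ m ∧ ‖cov ((m : ℝ) • p)‖ < η := by
  obtain ⟨a, -, φ, hφ, hlim⟩ := (isCompact_univ (X := T n)).tendsto_subseq
    (x := fun k : ℕ => cov ((k : ℝ) • p)) (fun k => mem_univ _)
  have hc := hlim.cauchySeq
  rw [Metric.cauchySeq_iff'] at hc
  obtain ⟨N, hN⟩ := hc η hη
  have h1 := hN (N + 1) (Nat.le_succ N)
  have hlt : φ N < φ (N + 1) := hφ (Nat.lt_succ_self N)
  refine ⟨φ (N + 1) - φ N, by omega, ?_⟩
  rw [dist_eq_norm] at h1
  simp only [Function.comp] at h1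
  rw [← cov_sub, ← sub_smul] at h1
  rw [Nat.cast_sub hlt.le]
  exact h1

/-- For `|p|` large, `H(·, p)` has no zero. -/
theorem no_zero {H : T n → E n → ℝ} (hH : HamC2 H) {p : E n}
    (hp : ∀ y : E n, 1 ≤ 1 / 2 * H (cov y) p ^ 2 + DxH H y p p) (x : T n) : H x p ≠ 0 := by
  intro hx
  obtain ⟨y, rfl⟩ := cov_surjective x
  have hz : ∀ z : E n, H (cov z) p = 0 → 0 < DxH H z p p := by
    intro z hz
    have := hp z
    rw [hz] at this
    linarith
  have hfw : ∀ t : ℝ, 0 < t → 0 < H (cov (y + t • p)) p := by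
    refine pos_of_deriv_pos_at_zeros (h := fun t => H (cov (y + t • p)) p)
      (fun t => hasDerivAt_Hx_line hH y p p t) (fun t ht => hz _ ht) ?_
    simpa using hx
  have hbw : H (cov (y - p)) p < 0 := by
    have h1 : ∀ t : ℝ, 0 < t → 0 < - H (cov (y + (-t) • p)) p := by
      refine pos_of_deriv_pos_at_zeros (h := fun t => - H (cov (y + (-t) • p)) p)
        (h' := fun t => DxH H (y + (-t) • p) p p) (fun t => ?_) (fun t ht => hz _ ?_) ?_
      · have h2 := (hasDerivAt_Hx_line hH y p p (-t)).scomp t (hasDerivAt_neg t)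
        have h3 := h2.neg
        have h4 : -((-1 : ℝ) • DxH H (y + (-t) • p) p p) = DxH H (y + (-t) • p) p p := by simp
        rw [h4] at h3
        exact h3
      · have : - H (cov (y + (-t) • p)) p = 0 := ht
        linarith
      · simpa using hx
    have h2 := h1 1 one_pos
    have h3 : y + (-1 : ℝ) • p = y - p := by rw [neg_smul, one_smul]; abel
    rw [h3] at h2
    linarith
  -- continuity at cov (y - p)
  have hcont : Continuous (fun z : T n => H z p) :=
    (continuous_H hH).comp (by fun_prop : Continuous fun z : T n => (z, p))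
  have h4 := Metric.continuous_iff.1 hcont (cov (y - p)) (- H (cov (y - p)) p) (by linarith)
  obtain ⟨η, hη, hη2⟩ := h4
  obtain ⟨m, hm, hm2⟩ := recur p hη
  have h5 := hη2 (cov (y - p + (m : ℝ) • p)) (by
    rw [cov_add (y - p), dist_eq_norm, add_sub_cancel_left]
    exact hm2)
  rw [Real.dist_eq] at h5
  have h6 := (abs_lt.1 h5).2
  have h7 : y - p + (m : ℝ) • p = y + ((m : ℝ) - 1) • p := by
    rw [sub_smul, one_smul]; abel
  have h8 : 0 ≤ H (cov (y - p + (m : ℝ) • p)) p := by
    rw [h7]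
    rcases eq_or_lt_of_le hm with h | h
    · rw [← h]; simp [hx]
    · refine (hfw _ ?_).le
      have : (1 : ℝ) < m := by exact_mod_cast h
      linarith
  linarith

/-- Under (A1) there is a radius beyond which `H` never vanishes. -/
theorem exists_radius {H : T n → E n → ℝ} (hH : HamC2 H) (hA : A1 H) :
    ∃ R : ℝ, 0 < R ∧ ∀ (x : T n) (p : E n), R ≤ ‖p‖ → H x p ≠ 0 := by
  obtain ⟨R, hR⟩ := hA 1
  refine ⟨max R 1, lt_max_of_lt_right one_pos, ?_⟩
  intro x p hp
  exact no_zero hH (fun y => hR y p ((le_max_left _ _).trans hp)) x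

/-- Homogeneity: (A2) implies that `H(x, s⁻¹ p) ≤ 0` forces `H(x, p) ≤ 0`, `0 < s ≤ 1`. -/
theorem nonpos_of_scaled {H : T n → E n → ℝ} (hH : HamC2 H) (hA : A2 H) {x : T n} {p : E n}
    {s : ℝ} (hs0 : 0 < s) (hs1 : s ≤ 1) (h : H x (s⁻¹ • p) ≤ 0) : H x p ≤ 0 := by
  obtain ⟨θ, hθ, hA⟩ := hA
  have hd : ∀ t : ℝ, HasDerivAt (fun t : ℝ => H x (t • p)) (DpH H x (t • p) p) t := by
    intro t
    have := hasDerivAt_Hp_line hH x 0 p t
    simpa using this
  -- g(t) = H(x, t p) t ^ (-(1+θ))
  have hmono : MonotoneOn (fun t : ℝ => H x (t • p) * t ^ (-(1 + θ))) (Ioi 0) := by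
    have hder : ∀ t ∈ Ioi (0 : ℝ), HasDerivAt (fun t : ℝ => H x (t • p) * t ^ (-(1 + θ)))
        (DpH H x (t • p) p * t ^ (-(1 + θ)) +
          H x (t • p) * (-(1 + θ) * t ^ (-(1 + θ) - 1))) t := by
      intro t ht
      exact (hd t).mul (Real.hasDerivAt_rpow_const (Or.inl (ne_of_gt ht)))
    refine monotoneOn_of_deriv_nonneg (convex_Ioi 0) ?_ ?_ ?_
    · intro t ht
      exact (hder t ht).continuousAt.continuousWithinAt
    · intro t ht
      rw [interior_Ioi] at ht
      exact (hder t ht).differentiableAt.differentiableWithinAt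
    · intro t ht
      rw [interior_Ioi] at ht
      rw [(hder t ht).deriv]
      have ht' : 0 < t := ht
      have h1 : t ^ (-(1 + θ)) = t * t ^ (-(1 + θ) - 1) := by
        rw [Real.rpow_sub_one ht'.ne']
        field_simp
      rw [h1]
      have h2 : DpH H x (t • p) p * (t * t ^ (-(1 + θ) - 1)) +
          H x (t • p) * (-(1 + θ) * t ^ (-(1 + θ) - 1)) =
          t ^ (-(1 + θ) - 1) * (t * DpH H x (t • p) p - (θ + 1) * H x (t • p)) := by ring
      rw [h2]
      have h3 : t * DpH H x (t • p) p = DpH H x (t • p) (t • p) := by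
        unfold DpH; rw [map_smul, smul_eq_mul]
      rw [h3]
      have h4 := hA x (t • p)
      exact mul_nonneg (Real.rpow_nonneg ht'.le _) (by linarith)
  have h1 := hmono (a := 1) (mem_Ioi.2 one_pos) (b := s⁻¹) (mem_Ioi.2 (inv_pos.2 hs0))
    (one_le_inv_iff₀.2 ⟨hs0, hs1⟩)
  simp only [one_smul, Real.one_rpow, mul_one] at h1
  have h2 : H x (s⁻¹ • p) * s⁻¹ ^ (-(1 + θ)) ≤ 0 :=
    mul_nonpos_of_nonpos_of_nonneg h (Real.rpow_nonneg (inv_pos.2 hs0).le _)
  linarith

end Pool.Agent.R194.MM
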