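import Mathlib
import Pool.Agent.R194.MM.Sign

namespace Pool.Agent.R194.MM

open MeasureTheory Set Topology Gradient Filter

variable {n : ℕ}

theorem hasGradientAt_sq (c : ℝ) (a x : E n) :
    HasGradientAt (fun z : E n => c * ‖z - a‖ ^ 2) ((2 * c) • (x - a)) x := by
  have h1 : HasFDerivAt (fun z : E n => z - a) (ContinuousLinearMap.id ℝ (E n)) x :=
    (hasFDerivAt_id x).sub_const a
  have h2 := (h1.norm_sq).const_mul c
  rw [hasGradientAt_iff_hasFDerivAt]
  have e : (InnerProductSpace.toDual ℝ (E n)) ((2 * c) • (x - a)) =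
      c • 2 • (innerSL ℝ) (x - a) ∘SL ContinuousLinearMap.id ℝ (E n) := by
    refine ContinuousLinearMap.ext fun e => ?_
    rw [InnerProductSpace.toDual_apply_apply, real_inner_smul_left]
    have : (c • 2 • (innerSL ℝ) (x - a) ∘SL ContinuousLinearMap.id ℝ (E n)) e =
      c * (2 * inner ℝ (x - a) e) := by
      simp only [smul_apply, ContinuousLinearMap.comp_apply, ContinuousLinearMap.id_apply,
        innerSL_apply_apply, smul_eq_mul, two_smul, add_apply]
      ring
    rw [this]; ring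
  rw [e]
  exact h2

theorem hasGradientAt_torus {φ : T n → ℝ} (hφ : TorusC2 φ) (y : E n) :
    HasGradientAt (fun z : E n => φ (cov z)) (gradT φ (cov y)) y := by
  rw [gradT_cov]
  exact ((hφ.differentiable (by norm_num)) y).hasGradientAt

/-- Doubling of variables. -/
theorem doubling {H : T n → E n → ℝ} {v w φ : T n → ℝ} (hv : IsSub H 0 v) (hw : IsSuper H 0 w)
    (hφ : TorusC2 φ) {s δ ε : ℝ} (hs : 0 < s) (hε : 0 < ε) :
    ∃ (t : T n) (p : E n),
      (∀ t' : T n, s * v t' - w t' - δ * φ t' ≤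
        s * v (t + cov (ε • p)) - w t - δ * φ t) ∧
      H (t + cov (ε • p)) (s⁻¹ • p) ≤ 0 ∧ 0 ≤ H t (p - δ • gradT φ t) := by
  obtain ⟨hvc, hv⟩ := hv
  obtain ⟨hwc, hw⟩ := hw
  have hφc := hφ.continuous
  set Ψ : T n × E n → ℝ := fun z =>
    s * v (z.1 + cov z.2) - w z.1 - δ * φ z.1 - ‖z.2‖ ^ 2 / (2 * ε) with hΨ
  have hcov := continuous_cov (n := n)
  have hΨc : Continuous Ψ := by
    rw [hΨ]; fun_prop
  -- bound
  obtain ⟨B, hB⟩ : ∃ B : ℝ, ∀ z : T n × T n, |s * v z.2 - w z.1 - δ * φ z.1| ≤ B := by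
    have hc : Continuous (fun z : T n × T n => s * v z.2 - w z.1 - δ * φ z.1) := by fun_prop
    obtain ⟨B, hB⟩ := isCompact_univ.exists_bound_of_continuousOn hc.continuousOn
    exact ⟨B, fun z => hB z (mem_univ _)⟩
  have hB0 : 0 ≤ B := (abs_nonneg _).trans (hB (0, 0))
  set ρ : ℝ := Real.sqrt (4 * ε * B) + 1 with hρ
  have hρ0 : 0 < ρ := by have := Real.sqrt_nonneg (4 * ε * B); linarith
  have hρ2 : 2 * B < ρ ^ 2 / (2 * ε) := by
    rw [lt_div_iff₀ (by positivity)]
    have h1 := Real.sq_sqrt (by positivity : 0 ≤ 4 * ε * B)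
    have h2 := Real.sqrt_nonneg (4 * ε * B)
    rw [hρ]; nlinarith
  have hcomp : IsCompact ((univ : Set (T n)) ×ˢ (Metric.closedBall (0 : E n) ρ)) :=
    isCompact_univ.prod (isCompact_closedBall _ _)
  obtain ⟨⟨t, z⟩, hzmem, hmax⟩ := hcomp.exists_isMaxOn
    ⟨(0, 0), by simp [hρ0.le]⟩ hΨc.continuousOn
  have hglob : ∀ u : T n × E n, Ψ u ≤ Ψ (t, z) := by
    intro u
    by_cases hu : ‖u.2‖ ≤ ρ
    · exact hmax (show u ∈ _ from ⟨mem_univ _, by simpa using hu⟩)
    · push Not at hu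
      have h1 := (abs_le.1 (hB (u.1, u.1 + cov u.2))).2
      have h2 : ρ ^ 2 / (2 * ε) ≤ ‖u.2‖ ^ 2 / (2 * ε) := by
        apply div_le_div_of_nonneg_right _ (by positivity)
        exact pow_le_pow_left₀ hρ0.le hu.le 2
      have h3 : Ψ (t, 0) ≤ Ψ (t, z) := hmax (show ((t, 0) : T n × E n) ∈ _ from
        ⟨mem_univ _, by simp [hρ0.le]⟩)
      have h4 := (abs_le.1 (hB (t, t + cov (0 : E n)))).1
      have h5 : Ψ (t, 0) = s * v (t + cov (0 : E n)) - w t - δ * φ t := by
        simp [hΨ]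
      have h6 : Ψ u = s * v (u.1 + cov u.2) - w u.1 - δ * φ u.1 - ‖u.2‖ ^ 2 / (2 * ε) := rfl
      simp only at h1 h4
      linarith
  have hzp : ε • (ε⁻¹ • z) = z := by rw [smul_smul, mul_inv_cancel₀ hε.ne', one_smul]
  refine ⟨t, ε⁻¹ • z, ?_, ?_, ?_⟩
  · intro t'
    rw [hzp]
    have h1 := hglob (t', 0)
    simp only [hΨ, cov_zero, add_zero, norm_zero] at h1
    have h2 : 0 ≤ ‖z‖ ^ 2 / (2 * ε) := by positivity
    have h3 : (0 : ℝ) ^ 2 / (2 * ε) = 0 := by simp
    linarith
  · -- subsolution test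
    rw [hzp]
    set y := rep t with hy
    have hty : cov y = t := cov_rep t
    set ψ : E n → ℝ := fun x => (1 / (2 * ε * s)) * ‖x - y‖ ^ 2 with hψ
    have h1 : ContDiff ℝ 1 ψ := by
      rw [hψ]
      exact contDiff_const.mul ((contDiff_id.sub contDiff_const).norm_sq ℝ)
    have h2 := hv ψ (y + z) h1 (by
      apply IsMaxOn.isLocalMax (s := univ) _ univ_mem
      intro x _
      have h3 := hglob (t, x - y)
      simp only [hΨ] at h3
      have h4 : t + cov (x - y) = cov x := by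
        rw [← hty, ← cov_add]; congr 1; abel
      have h5 : t + cov z = cov (y + z) := by rw [cov_add, hty]
      rw [h4, h5] at h3
      change v (cov x) - ψ x ≤ v (cov (y + z)) - ψ (y + z)
      have h6 : ψ (y + z) = (1 / (2 * ε * s)) * ‖z‖ ^ 2 := by
        rw [hψ]; simp
      rw [h6, hψ]
      have h7 : s * (v (cov x) - 1 / (2 * ε * s) * ‖x - y‖ ^ 2) ≤
          s * (v (cov (y + z)) - 1 / (2 * ε * s) * ‖z‖ ^ 2) := by
        have e1 : ∀ a b : ℝ, s * (a - 1 / (2 * ε * s) * b) = s * a - b / (2 * ε) := by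
          intro a b; field_simp
        rw [e1, e1]
        linarith
      exact le_of_mul_le_mul_left h7 hs)
    have h3 : ∇ ψ (y + z) = s⁻¹ • (ε⁻¹ • z) := by
      rw [(hasGradientAt_sq (1 / (2 * ε * s)) y (y + z)).gradient, smul_smul]
      have : y + z - y = z := by abel
      rw [this]
      congr 1
      field_simp
    rw [h3, cov_add, hty] at h2
    exact h2
  · -- supersolution test
    set y := rep t with hy
    have hty : cov y = t := cov_rep t
    set ψ : E n → ℝ := fun x => (-(δ * φ (cov x))) + (-(1 / (2 * ε))) * ‖x - (y + z)‖ ^ 2 with hψ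
    have h1 : ContDiff ℝ 1 ψ := by
      have hφ1 : ContDiff ℝ 1 (fun x : E n => φ (cov x)) :=
        ContDiff.of_le hφ (by norm_num)
      rw [hψ]
      exact (contDiff_const.mul hφ1).neg.add
        (contDiff_const.mul ((contDiff_id.sub contDiff_const).norm_sq ℝ))
    have h2 := hw ψ y h1 (by
      apply IsMinOn.isLocalMin (s := univ) _ univ_mem
      intro x _
      have h3 := hglob (cov x, (y + z) - x)
      simp only [hΨ] at h3
      have h4 : cov x + cov (y + z - x) = cov (y + z) := by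
        rw [← cov_add]; congr 1; abel
      have h5 : t + cov z = cov (y + z) := by rw [cov_add, hty]
      rw [h4, h5] at h3
      change w (cov y) - ψ y ≤ w (cov x) - ψ x
      have h6 : ψ y = (-(δ * φ t)) + (-(1 / (2 * ε))) * ‖z‖ ^ 2 := by
        rw [hψ]; simp [hty]
      have h7 : ‖x - (y + z)‖ = ‖y + z - x‖ := norm_sub_rev _ _
      have h8 : ψ x = (-(δ * φ (cov x))) + (-(1 / (2 * ε))) * ‖x - (y + z)‖ ^ 2 := rfl
      rw [h6, h8, hty, h7]
      have e1 : ∀ b : ℝ, b / (2 * ε) = 1 / (2 * ε) * b := by intro b; ring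
      rw [e1 (‖y + z - x‖ ^ 2), e1 (‖z‖ ^ 2)] at h3
      linarith)
    have h3 : ∇ ψ y = ε⁻¹ • z - δ • gradT φ t := by
      have g1 := hasGradientAt_torus hφ y
      have g2 := hasGradientAt_sq (-(1 / (2 * ε))) (y + z) y
      have g3 : HasGradientAt ψ (-(δ • gradT φ (cov y)) + (2 * (-(1 / (2 * ε)))) • (y - (y + z))) y := by
        rw [hasGradientAt_iff_hasFDerivAt] at g1 g2 ⊢
        have := (g1.const_mul δ).neg.add g2
        rw [map_add, map_neg, map_smulₛₗ]
        exact this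
      rw [g3.gradient, hty]
      have e2 : y - (y + z) = -z := by abel
      rw [e2, smul_neg]
      have e3 : 2 * (-(1 / (2 * ε))) = -ε⁻¹ := by field_simp
      rw [e3, neg_smul, neg_neg]
      abel
    rw [h3, hty] at h2
    exact h2

end Pool.Agent.R194.MM
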