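import Mathlib
import Pool.Agent.R194.MM.Doubling

namespace Pool.Agent.R194.MM

open MeasureTheory Set Topology Gradient Filter

variable {n : ℕ}

/-- A priori bound on the momentum. -/
theorem momentum_bound {H : T n → E n → ℝ} (hH : HamC2 H) {R G : ℝ}
    (hR : ∀ (x : T n) (p : E n), R ≤ ‖p‖ → H x p ≠ 0) {x x' : T n} {p g : E n} {s δ : ℝ}
    (hs0 : 0 < s) (hs1 : s ≤ 1) (hδ0 : 0 ≤ δ) (hδ1 : δ ≤ 1) (hg : ‖g‖ ≤ G)
    (h1 : H x (s⁻¹ • p) ≤ 0) (h2 : 0 ≤ H x' (p - δ • g)) : ‖p‖ ≤ R + G := by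
  by_contra hcon
  push Not at hcon
  obtain ⟨y, rfl⟩ := cov_surjective x
  obtain ⟨y', rfl⟩ := cov_surjective x'
  set F : ℝ → ℝ := fun t => H (cov ((1 - t) • y + t • y'))
    ((1 - t) • (s⁻¹ • p) + t • (p - δ • g)) with hF
  have hFc : Continuous F := by
    have h3 := continuous_H hH
    have h4 := continuous_cov (n := n)
    have h5 : Continuous fun t : ℝ => ((cov ((1 - t) • y + t • y') : T n),
        ((1 - t) • (s⁻¹ • p) + t • (p - δ • g))) := by fun_prop
    exact h3.comp h5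
  have hF0 : F 0 ≤ 0 := by simpa [hF] using h1
  have hF1 : 0 ≤ F 1 := by simpa [hF] using h2
  have h3 : (0 : ℝ) ∈ Icc (F 0) (F 1) := ⟨hF0, hF1⟩
  obtain ⟨t, ht, ht0⟩ := intermediate_value_Icc zero_le_one hFc.continuousOn h3
  refine hR _ _ ?_ ht0
  have e : (1 - t) • (s⁻¹ • p) + t • (p - δ • g) = ((1 - t) * s⁻¹ + t) • p - (t * δ) • g := by
    rw [smul_sub, smul_smul, smul_smul, add_smul]; abel
  rw [e]
  have h4 : ‖((1 - t) * s⁻¹ + t) • p‖ - ‖(t * δ) • g‖ ≤
    ‖((1 - t) * s⁻¹ + t) • p - (t * δ) • g‖ := norm_sub_norm_le _ _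
  have hsi : 1 ≤ s⁻¹ := one_le_inv_iff₀.2 ⟨hs0, hs1⟩
  have h5 : 1 ≤ (1 - t) * s⁻¹ + t := by nlinarith [ht.1, ht.2]
  rw [norm_smul, norm_smul, Real.norm_eq_abs, Real.norm_eq_abs, abs_of_pos (by linarith),
    abs_of_nonneg (mul_nonneg ht.1 hδ0)] at h4
  have h6 : ‖p‖ ≤ ((1 - t) * s⁻¹ + t) * ‖p‖ := by nlinarith [norm_nonneg p]
  have h7 : t * δ * ‖g‖ ≤ G := by
    have : t * δ ≤ 1 := by nlinarith [ht.1, ht.2]
    have h8 := mul_nonneg ht.1 hδ0
    nlinarith [norm_nonneg g]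
  linarith

/-- The limit `ε → 0` in the doubling of variables. -/
theorem limit_eps {H : T n → E n → ℝ} (hH : HamC2 H) {v w φ : T n → ℝ} (hv : IsSub H 0 v)
    (hw : IsSuper H 0 w) (hφ : TorusC2 φ) {R G : ℝ}
    (hR : ∀ (x : T n) (p : E n), R ≤ ‖p‖ → H x p ≠ 0) (hG : ∀ x, ‖gradT φ x‖ ≤ G)
    {s δ : ℝ} (hs0 : 0 < s) (hs1 : s ≤ 1) (hδ0 : 0 ≤ δ) (hδ1 : δ ≤ 1) :
    ∃ (t : T n) (p : E n), ‖p‖ ≤ R + G ∧
      (∀ t' : T n, s * v t' - w t' - δ * φ t' ≤ s * v t - w t - δ * φ t) ∧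
      H t (s⁻¹ • p) ≤ 0 ∧ 0 ≤ H t (p - δ • gradT φ t) := by
  have hvc := hv.1
  have hwc := hw.1
  have hφc := hφ.continuous
  have hgc := continuous_gradT hφ
  have hHc := continuous_H hH
  have hcov := continuous_cov (n := n)
  have hεpos : ∀ j : ℕ, (0 : ℝ) < 1 / ((j : ℝ) + 1) := fun j => by positivity
  choose t p h1 h2 h3 using fun j : ℕ => doubling (s := s) (δ := δ) hv hw hφ hs0 (hεpos j)
  have hpb : ∀ j, ‖p j‖ ≤ R + G := fun j =>
    momentum_bound hH hR hs0 hs1 hδ0 hδ1 (hG _) (h2 j) (h3 j)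
  have hcomp : IsCompact ((univ : Set (T n)) ×ˢ (Metric.closedBall (0 : E n) (R + G))) :=
    isCompact_univ.prod (isCompact_closedBall _ _)
  obtain ⟨⟨t0, p0⟩, hmem, σ, hσ, hlim⟩ := hcomp.tendsto_subseq (x := fun j => (t j, p j))
    (fun j => ⟨mem_univ _, by simpa using hpb j⟩)
  have hlt : Tendsto (fun j => t (σ j)) atTop (𝓝 t0) := (continuous_fst.tendsto _).comp hlim
  have hlp : Tendsto (fun j => p (σ j)) atTop (𝓝 p0) := (continuous_snd.tendsto _).comp hlim
  have hle : Tendsto (fun j => (1 : ℝ) / ((σ j : ℝ) + 1)) atTop (𝓝 0) :=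
    (tendsto_one_div_add_atTop_nhds_zero_nat (𝕜 := ℝ)).comp hσ.tendsto_atTop
  have hlz : Tendsto (fun j => t (σ j) + cov (((1 : ℝ) / ((σ j : ℝ) + 1)) • p (σ j))) atTop
      (𝓝 t0) := by
    have h4 : Tendsto (fun j => ((1 : ℝ) / ((σ j : ℝ) + 1)) • p (σ j)) atTop (𝓝 (0 : E n)) := by
      simpa using hle.smul hlp
    have h5 := (hcov.tendsto 0).comp h4
    rw [cov_zero] at h5
    simpa using hlt.add h5
  refine ⟨t0, p0, by simpa using hmem.2, ?_, ?_, ?_⟩
  · intro t'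
    have hlim2 : Tendsto (fun j => s * v (t (σ j) + cov (((1 : ℝ) / ((σ j : ℝ) + 1)) • p (σ j)))
        - w (t (σ j)) - δ * φ (t (σ j))) atTop (𝓝 (s * v t0 - w t0 - δ * φ t0)) :=
      (((hvc.tendsto t0).comp hlz).const_mul s |>.sub ((hwc.tendsto t0).comp hlt)).sub
        (((hφc.tendsto t0).comp hlt).const_mul δ)
    exact ge_of_tendsto' hlim2 (fun j => h1 (σ j) t')
  · have hlim2 : Tendsto (fun j => H (t (σ j) + cov (((1 : ℝ) / ((σ j : ℝ) + 1)) • p (σ j)))
        (s⁻¹ • p (σ j))) atTop (𝓝 (H t0 (s⁻¹ • p0))) :=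
      (hHc.tendsto (t0, s⁻¹ • p0)).comp (hlz.prodMk_nhds (hlp.const_smul s⁻¹))
    exact le_of_tendsto' hlim2 (fun j => h2 (σ j))
  · have hlim2 : Tendsto (fun j => H (t (σ j)) (p (σ j) - δ • gradT φ (t (σ j)))) atTop
        (𝓝 (H t0 (p0 - δ • gradT φ t0))) :=
      (hHc.tendsto (t0, p0 - δ • gradT φ t0)).comp
        (hlt.prodMk_nhds (hlp.sub (((hgc.tendsto t0).comp hlt).const_smul δ)))
    exact ge_of_tendsto' hlim2 (fun j => h3 (σ j))

/-- The key lemma: for every `φ ∈ C^2(T^n)` there is a point `(x, p)` with `x` a maximum point of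
`v - w`, `H(x, p) = 0`, `D_p H(x, p) · p = 0` and `D_p H(x, p) · Dφ(x) ≤ 0`. -/
theorem key {H : T n → E n → ℝ} (hH : HamC2 H) (hA1 : A1 H) (hA2 : A2 H) {v w φ : T n → ℝ}
    (hv : IsSub H 0 v) (hw : IsSuper H 0 w) (hφ : TorusC2 φ) :
    ∃ (x : T n) (p : E n), (∀ x', v x' - w x' ≤ v x - w x) ∧ H x p = 0 ∧ DpH H x p p = 0 ∧
      DpH H x p (gradT φ x) ≤ 0 := by
  have hvc := hv.1
  have hwc := hw.1
  have hφc := hφ.continuous
  have hgc := continuous_gradT hφ
  have hHc := continuous_H hH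
  have hDc := continuous_DpH hH
  obtain ⟨R, hR0, hR⟩ := exists_radius hH hA1
  obtain ⟨G, hG⟩ : ∃ G : ℝ, ∀ x, ‖gradT φ x‖ ≤ G := by
    obtain ⟨G, hG⟩ := isCompact_univ.exists_bound_of_continuousOn hgc.continuousOn
    exact ⟨G, fun x => hG x (mem_univ _)⟩
  -- s_k = 1 - 1/(k+2), δ_k = 1/(k+2)^2
  set a : ℕ → ℝ := fun k => 1 / ((k : ℝ) + 1 + 1) with ha
  have ha0 : ∀ k, 0 < a k := fun k => by rw [ha]; positivity
  have ha1 : ∀ k, a k ≤ 1 / 2 := fun k => by
    simp only [ha]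
    rw [div_le_div_iff₀ (by positivity) (by norm_num)]
    have : (0 : ℝ) ≤ k := Nat.cast_nonneg k
    linarith
  have hlima : Tendsto a atTop (𝓝 0) := by
    have h1 := (tendsto_add_atTop_iff_nat (f := fun k : ℕ => (1 : ℝ) / ((k : ℝ) + 1)) 1).2
      (tendsto_one_div_add_atTop_nhds_zero_nat (𝕜 := ℝ))
    simpa [ha] using h1
  choose t p hpb hmax h1 h2 using fun k : ℕ => limit_eps (s := 1 - a k) (δ := a k ^ 2) hH hv hw hφ
    hR hG (by linarith [ha1 k]) (by linarith [ha0 k]) (by positivity)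
    (by nlinarith [ha0 k, ha1 k])
  have hcomp : IsCompact ((univ : Set (T n)) ×ˢ (Metric.closedBall (0 : E n) (R + G))) :=
    isCompact_univ.prod (isCompact_closedBall _ _)
  obtain ⟨⟨t0, p0⟩, hmem, σ, hσ, hlim⟩ := hcomp.tendsto_subseq (x := fun j => (t j, p j))
    (fun j => ⟨mem_univ _, by simpa using hpb j⟩)
  have hlt : Tendsto (fun j => t (σ j)) atTop (𝓝 t0) := (continuous_fst.tendsto _).comp hlim
  have hlp : Tendsto (fun j => p (σ j)) atTop (𝓝 p0) := (continuous_snd.tendsto _).comp hlim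
  have hla : Tendsto (fun j => a (σ j)) atTop (𝓝 0) := hlima.comp hσ.tendsto_atTop
  have hls : Tendsto (fun j => 1 - a (σ j)) atTop (𝓝 1) := by
    simpa using tendsto_const_nhds.sub hla
  have hlsi : Tendsto (fun j => (1 - a (σ j))⁻¹) atTop (𝓝 1) := by
    simpa using hls.inv₀ one_ne_zero
  have hlδ : Tendsto (fun j => a (σ j) ^ 2) atTop (𝓝 0) := by simpa using hla.pow 2
  have hlg : Tendsto (fun j => gradT φ (t (σ j))) atTop (𝓝 (gradT φ t0)) :=
    (hgc.tendsto t0).comp hlt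
  have hlq1 : Tendsto (fun j => (1 - a (σ j))⁻¹ • p (σ j)) atTop (𝓝 p0) := by
    simpa using hlsi.smul hlp
  have hlq2 : Tendsto (fun j => p (σ j) - a (σ j) ^ 2 • gradT φ (t (σ j))) atTop (𝓝 p0) := by
    simpa using hlp.sub (hlδ.smul hlg)
  have hle1 : ∀ j, H (t j) (p j) ≤ 0 := fun j =>
    nonpos_of_scaled hH hA2 (by linarith [ha1 j]) (by linarith [ha0 j]) (h1 j)
  have hH0 : H t0 p0 = 0 := by
    apply le_antisymm
    · exact le_of_tendsto' ((hHc.tendsto (t0, p0)).comp (hlt.prodMk_nhds hlp))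
        (fun j => hle1 (σ j))
    · exact ge_of_tendsto' ((hHc.tendsto (t0, p0)).comp (hlt.prodMk_nhds hlq2))
        (fun j => h2 (σ j))
  refine ⟨t0, p0, ?_, hH0, ?_, ?_⟩
  · -- maximum point
    intro x'
    have hlim1 : Tendsto (fun j => (1 - a (σ j)) * v x' - w x' - a (σ j) ^ 2 * φ x') atTop
        (𝓝 (1 * v x' - w x' - 0 * φ x')) :=
      ((hls.mul_const _).sub tendsto_const_nhds).sub (hlδ.mul_const _)
    have hlim2 : Tendsto (fun j => (1 - a (σ j)) * v (t (σ j)) - w (t (σ j)) -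
        a (σ j) ^ 2 * φ (t (σ j))) atTop (𝓝 (1 * v t0 - w t0 - 0 * φ t0)) :=
      ((hls.mul ((hvc.tendsto t0).comp hlt)).sub ((hwc.tendsto t0).comp hlt)).sub
        (hlδ.mul ((hφc.tendsto t0).comp hlt))
    have h3 := le_of_tendsto_of_tendsto' hlim1 hlim2 (fun j => hmax (σ j) x')
    linarith
  · -- action
    apply le_antisymm
    · -- mean value theorem between `p - δ g` and `s⁻¹ p`
      have hmv : ∀ j : ℕ, ∃ τ ∈ Icc (0 : ℝ) 1,
          DpH H (t j) ((p j - a j ^ 2 • gradT φ (t j)) +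
            τ • ((1 - a j)⁻¹ • p j - (p j - a j ^ 2 • gradT φ (t j))))
            (p j + (a j * (1 - a j)) • gradT φ (t j)) ≤ 0 := by
        intro j
        obtain ⟨τ, hτ, h3⟩ := mvt_p hH (t j) (p j - a j ^ 2 • gradT φ (t j)) ((1 - a j)⁻¹ • p j)
        refine ⟨τ, hτ, ?_⟩
        have hs : 0 < 1 - a j := by linarith [ha1 j]
        have e1 : (1 - a j)⁻¹ • p j - (p j - a j ^ 2 • gradT φ (t j)) =
            (a j / (1 - a j)) • (p j + (a j * (1 - a j)) • gradT φ (t j)) := by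
          rw [smul_add, smul_smul]
          have e2 : a j / (1 - a j) * (a j * (1 - a j)) = a j ^ 2 := by
            field_simp
          rw [e2]
          have e3 : (1 - a j)⁻¹ = 1 + a j / (1 - a j) := by
            field_simp; ring
          rw [e3, add_smul, one_smul]
          abel
        have h4 : DpH H (t j) ((p j - a j ^ 2 • gradT φ (t j)) +
            τ • ((1 - a j)⁻¹ • p j - (p j - a j ^ 2 • gradT φ (t j))))
            ((1 - a j)⁻¹ • p j - (p j - a j ^ 2 • gradT φ (t j))) ≤ 0 := by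
          rw [← h3]
          linarith [h1 j, h2 j]
        rw [e1] at h4 ⊢
        unfold DpH at h4 ⊢
        rw [map_smul, smul_eq_mul] at h4
        have h5 : 0 < a j / (1 - a j) := div_pos (ha0 j) hs
        by_contra hcon
        push Not at hcon
        have := mul_pos h5 hcon
        linarith
      choose τ hτ hτ2 using hmv
      have hbase : Tendsto (fun j => (p (σ j) - a (σ j) ^ 2 • gradT φ (t (σ j))) +
            τ (σ j) • ((1 - a (σ j))⁻¹ • p (σ j) -
              (p (σ j) - a (σ j) ^ 2 • gradT φ (t (σ j))))) atTop (𝓝 p0) := by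
        have h3 : Tendsto (fun j => τ (σ j) • ((1 - a (σ j))⁻¹ • p (σ j) -
              (p (σ j) - a (σ j) ^ 2 • gradT φ (t (σ j))))) atTop (𝓝 0) := by
          have h4 : Tendsto (fun j => ((1 - a (σ j))⁻¹ • p (σ j) -
              (p (σ j) - a (σ j) ^ 2 • gradT φ (t (σ j))))) atTop (𝓝 0) := by
            simpa using hlq1.sub hlq2
          rw [tendsto_zero_iff_norm_tendsto_zero] at h4 ⊢
          refine squeeze_zero (fun j => norm_nonneg _) (fun j => ?_) h4
          rw [norm_smul, Real.norm_eq_abs, abs_of_nonneg (hτ (σ j)).1]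
          exact mul_le_of_le_one_left (norm_nonneg _) (hτ (σ j)).2
        simpa using hlq2.add h3
      have hdir : Tendsto (fun j => p (σ j) + (a (σ j) * (1 - a (σ j))) • gradT φ (t (σ j)))
          atTop (𝓝 p0) := by
        have h3 : Tendsto (fun j => a (σ j) * (1 - a (σ j))) atTop (𝓝 0) := by
          simpa using hla.mul hls
        simpa using hlp.add (h3.smul hlg)
      exact le_of_tendsto' ((hDc.tendsto (t0, (p0, p0))).comp
        (hlt.prodMk_nhds (hbase.prodMk_nhds hdir))) (fun j => hτ2 (σ j))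
    · obtain ⟨θ, hθ, hA⟩ := hA2
      have := hA t0 p0
      rw [hH0] at this
      linarith
  · -- the direction of the gradient
    have hmv : ∀ j : ℕ, ∃ τ ∈ Icc (0 : ℝ) 1,
        DpH H (t j) (p j + τ • ((p j - a j ^ 2 • gradT φ (t j)) - p j)) (gradT φ (t j)) ≤ 0 := by
      intro j
      obtain ⟨τ, hτ, h3⟩ := mvt_p hH (t j) (p j) (p j - a j ^ 2 • gradT φ (t j))
      refine ⟨τ, hτ, ?_⟩
      have e1 : p j - a j ^ 2 • gradT φ (t j) - p j = (-(a j ^ 2)) • gradT φ (t j) := by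
        rw [neg_smul]; abel
      have h4 : 0 ≤ DpH H (t j) (p j + τ • ((p j - a j ^ 2 • gradT φ (t j)) - p j))
          ((p j - a j ^ 2 • gradT φ (t j)) - p j) := by
        rw [← h3]
        linarith [h2 j, hle1 j]
      have h5 : DpH H (t j) (p j + τ • ((p j - a j ^ 2 • gradT φ (t j)) - p j))
          ((p j - a j ^ 2 • gradT φ (t j)) - p j) =
          -(a j ^ 2) * DpH H (t j) (p j + τ • ((p j - a j ^ 2 • gradT φ (t j)) - p j))
            (gradT φ (t j)) := by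
        conv_lhs => arg 4; rw [e1]
        unfold DpH
        rw [map_smul, smul_eq_mul]
      rw [h5] at h4
      have h6 : 0 < a j ^ 2 := pow_pos (ha0 j) 2
      by_contra hcon
      push Not at hcon
      have := mul_pos h6 hcon
      linarith
    choose τ hτ hτ2 using hmv
    have hbase : Tendsto (fun j => p (σ j) + τ (σ j) •
        ((p (σ j) - a (σ j) ^ 2 • gradT φ (t (σ j))) - p (σ j))) atTop (𝓝 p0) := by
      have h3 : Tendsto (fun j => τ (σ j) •
          ((p (σ j) - a (σ j) ^ 2 • gradT φ (t (σ j))) - p (σ j))) atTop (𝓝 0) := by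
        have h4 : Tendsto (fun j => (p (σ j) - a (σ j) ^ 2 • gradT φ (t (σ j))) - p (σ j)) atTop
            (𝓝 0) := by
          simpa using hlq2.sub hlp
        rw [tendsto_zero_iff_norm_tendsto_zero] at h4 ⊢
        refine squeeze_zero (fun j => norm_nonneg _) (fun j => ?_) h4
        rw [norm_smul, Real.norm_eq_abs, abs_of_nonneg (hτ (σ j)).1]
        exact mul_le_of_le_one_left (norm_nonneg _) (hτ (σ j)).2
      simpa using hlp.add h3
    exact le_of_tendsto' ((hDc.tendsto (t0, (p0, gradT φ t0))).comp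
      (hlt.prodMk_nhds (hbase.prodMk_nhds hlg))) (fun j => hτ2 (σ j))

end Pool.Agent.R194.MM
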