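import Mathlib

/-!
A subspace of `C(K)` (`K` compact) without strictly positive elements is annihilated by a
probability measure (Hahn-Banach and Riesz-Markov-Kakutani).
-/

namespace Pool.Agent.R194.MM

open MeasureTheory Set Topology CompactlySupported

theorem sep_measure {K : Type*} [TopologicalSpace K] [CompactSpace K] [T2Space K]
    [MeasurableSpace K] [BorelSpace K] (L : Submodule ℝ C(K, ℝ))
    (hL : ∀ f ∈ L, ¬ ∀ x, 0 < f x) :
    ∃ μ : Measure K, IsProbabilityMeasure μ ∧ ∀ f ∈ L, ∫ x, f x ∂μ = 0 := by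
  classical
  -- the open convex cone of positive functions
  set P : Set C(K, ℝ) := {f | ∀ x, 0 < f x} with hP
  have hKne : Nonempty K := by
    by_contra hne
    rw [not_nonempty_iff] at hne
    exact hL 0 L.zero_mem (fun x => (hne.false x).elim)
  have hPopen : IsOpen P := by
    have : P = {f : C(K, ℝ) | MapsTo f univ (Ioi 0)} := by
      ext f; simp [hP, MapsTo]
    rw [this]
    exact ContinuousMap.isOpen_setOf_mapsTo isCompact_univ isOpen_Ioi
  have hPconv : Convex ℝ P := by
    intro f hf g hg a b ha hb hab x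
    have h1 := hf x
    have h2 := hg x
    simp only [ContinuousMap.add_apply, ContinuousMap.smul_apply, smul_eq_mul]
    rcases eq_or_lt_of_le ha with h | h
    · have hb1 : b = 1 := by linarith
      rw [← h, hb1]; simpa using h2
    · have := mul_pos h h1
      have := mul_nonneg hb h2.le
      linarith
  have hdisj : Disjoint P (L : Set C(K, ℝ)) := by
    rw [Set.disjoint_left]
    intro f hf hfL
    exact hL f hfL hf
  obtain ⟨Λ, u, hΛ1, hΛ2⟩ := geometric_hahn_banach_open hPconv hPopen L.convex hdisj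
  have hu : u ≤ 0 := by simpa using hΛ2 0 L.zero_mem
  have hL0 : ∀ f ∈ L, Λ f = 0 := by
    intro f hf
    by_contra hne
    have h1 := hΛ2 (((u - 1) / Λ f) • f) (L.smul_mem _ hf)
    rw [map_smul, smul_eq_mul, div_mul_cancel₀ _ hne] at h1
    linarith
  have hpos : ∀ f : C(K, ℝ), (∀ x, 0 ≤ f x) → 0 ≤ - Λ f := by
    intro f hf
    by_contra hneg
    push Not at hneg
    -- choose small eps
    have h1 : ∀ ε : ℝ, 0 < ε → Λ f + ε * Λ 1 < 0 := by
      intro ε hε
      have hmem : f + ε • (1 : C(K, ℝ)) ∈ P := by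
        intro x
        simp only [ContinuousMap.add_apply, ContinuousMap.smul_apply, ContinuousMap.one_apply,
          smul_eq_mul, mul_one]
        have := hf x
        linarith
      have := hΛ1 _ hmem
      rw [map_add, map_smul, smul_eq_mul] at this
      linarith
    have h2 : 0 < Λ f := by linarith
    have h3 := h1 (Λ f / (2 * (|Λ 1| + 1))) (by positivity)
    have h4 : |Λ f / (2 * (|Λ 1| + 1)) * Λ 1| ≤ Λ f / 2 := by
      rw [abs_mul, abs_of_pos (by positivity)]
      rw [div_mul_eq_mul_div, div_le_div_iff₀ (by positivity) (by norm_num)]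
      nlinarith [abs_nonneg (Λ 1)]
    have h5 := neg_abs_le (Λ f / (2 * (|Λ 1| + 1)) * Λ 1)
    linarith
  have h1pos : 0 < - Λ 1 := by
    have h := hΛ1 (1 : C(K, ℝ)) (fun x => by simp)
    linarith
  -- the positive linear functional on `C_c`
  let Λ₀ : C_c(K, ℝ) →ₗ[ℝ] ℝ :=
    { toFun := fun g => - Λ (g : C(K, ℝ)) / (- Λ 1)
      map_add' := by
        intro g g'
        have : ((g + g' : C_c(K, ℝ)) : C(K, ℝ)) = (g : C(K, ℝ)) + (g' : C(K, ℝ)) := by
          ext x; rfl
        rw [this, map_add]
        ring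
      map_smul' := by
        intro c g
        have : ((c • g : C_c(K, ℝ)) : C(K, ℝ)) = c • (g : C(K, ℝ)) := by
          ext x; rfl
        rw [this, map_smul]
        simp only [smul_eq_mul, RingHom.id_apply]
        ring }
  let Λ' : C_c(K, ℝ) →ₚ[ℝ] ℝ := PositiveLinearMap.mk₀ Λ₀ (by
    intro g hg
    change 0 ≤ - Λ (g : C(K, ℝ)) / (- Λ 1)
    exact div_nonneg (hpos _ (fun x => hg x)) h1pos.le)
  set μ := RealRMK.rieszMeasure Λ' with hμ
  have hint : ∀ f : C(K, ℝ), ∫ x, f x ∂μ = - Λ f / (- Λ 1) := by
    intro f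
    let g : C_c(K, ℝ) := ⟨f, HasCompactSupport.of_compactSpace _⟩
    have h := RealRMK.integral_rieszMeasure Λ' g
    exact h
  have hprob : IsProbabilityMeasure μ := by
    have h1 := hint 1
    rw [div_self h1pos.ne'] at h1
    simp only [ContinuousMap.one_apply, integral_const, smul_eq_mul, mul_one] at h1
    constructor
    have h2 : μ.real univ = 1 := h1
    have hfin : IsFiniteMeasure μ := by rw [hμ]; infer_instance
    have h3 : μ univ = ENNReal.ofReal (μ.real univ) := by
      rw [Measure.real, ENNReal.ofReal_toReal (measure_ne_top μ univ)]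
    rw [h3, h2]; simp
  refine ⟨μ, hprob, ?_⟩
  intro f hf
  rw [hint f, hL0 f hf]
  simp

end Pool.Agent.R194.MM
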