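import Mathlib
import Pool.Agent.R194.MM.Limit
import Pool.Agent.R194.MM.Sep

namespace Pool.Agent.R194.MM

open MeasureTheory Set Topology Gradient Filter

variable {n : ℕ}

/-- The set of points over the maximum points of `v - w` on the zero level of `H` with vanishing
action. -/
def Sig (H : T n → E n → ℝ) (v w : T n → ℝ) : Set (T n × E n) :=
  {z | (∀ x', v x' - w x' ≤ v z.1 - w z.1) ∧ H z.1 z.2 = 0 ∧ DpH H z.1 z.2 z.2 = 0}

theorem isClosed_Sig {H : T n → E n → ℝ} (hH : HamC2 H) {v w : T n → ℝ} (hv : Continuous v)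
    (hw : Continuous w) : IsClosed (Sig H v w) := by
  have h1 : IsClosed {z : T n × E n | ∀ x', v x' - w x' ≤ v z.1 - w z.1} := by
    have : {z : T n × E n | ∀ x', v x' - w x' ≤ v z.1 - w z.1} =
        ⋂ x', {z : T n × E n | v x' - w x' ≤ v z.1 - w z.1} := by
      ext z; simp
    rw [this]
    exact isClosed_iInter fun x' => isClosed_le continuous_const (by fun_prop)
  have h2 : IsClosed {z : T n × E n | H z.1 z.2 = 0} :=
    isClosed_eq (continuous_H hH) continuous_const
  have h3 : IsClosed {z : T n × E n | DpH H z.1 z.2 z.2 = 0} :=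
    isClosed_eq ((continuous_DpH hH).comp
      (by fun_prop : Continuous fun z : T n × E n => (z.1, (z.2, z.2)))) continuous_const
  exact h1.inter (h2.inter h3)

theorem isCompact_Sig {H : T n → E n → ℝ} (hH : HamC2 H) (hA1 : A1 H) {v w : T n → ℝ}
    (hv : Continuous v) (hw : Continuous w) : IsCompact (Sig H v w) := by
  obtain ⟨R, hR0, hR⟩ := exists_radius hH hA1
  have hcomp : IsCompact ((univ : Set (T n)) ×ˢ (Metric.closedBall (0 : E n) R)) :=
    isCompact_univ.prod (isCompact_closedBall _ _)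
  refine hcomp.of_isClosed_subset (isClosed_Sig hH hv hw) ?_
  intro z hz
  refine ⟨mem_univ _, ?_⟩
  rw [mem_closedBall_zero_iff]
  by_contra hcon
  push Not at hcon
  exact hR z.1 z.2 hcon.le hz.2.1

/-- There is a Mather measure supported over the maximum points of `v - w`. -/
theorem exists_mather {H : T n → E n → ℝ} (hH : HamC2 H) (hA1 : A1 H) (hA2 : A2 H)
    {v w : T n → ℝ} (hv : IsSub H 0 v) (hw : IsSuper H 0 w) :
    ∃ μ : Measure (T n × E n), IsMather H 0 μ ∧ μ.support ⊆ Sig H v w := by
  have hvc := hv.1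
  have hwc := hw.1
  have hcl := isClosed_Sig hH hvc hwc
  have hco := isCompact_Sig hH hA1 hvc hwc
  have hHc := continuous_H hH
  have hDc := continuous_DpH hH
  haveI : CompactSpace (Sig H v w) := isCompact_iff_compactSpace.1 hco
  let L : Submodule ℝ C(Sig H v w, ℝ) :=
    { carrier := {f | ∃ φ : T n → ℝ, TorusC2 φ ∧
        ∀ z : Sig H v w, f z = DpH H z.1.1 z.1.2 (gradT φ z.1.1)}
      add_mem' := by
        rintro f g ⟨φ, hφ, hf⟩ ⟨ψ, hψ, hg⟩
        refine ⟨fun t => φ t + ψ t, hφ.add hψ, fun z => ?_⟩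
        rw [ContinuousMap.add_apply, hf, hg, gradT_add hφ hψ]
        unfold DpH
        rw [map_add]
      zero_mem' := by
        refine ⟨fun _ => 0, TorusC2.zero, fun z => ?_⟩
        have h1 := gradT_smul (TorusC2.zero (n := n)) 0 z.1.1
        simp only [zero_mul, zero_smul] at h1
        rw [h1]
        unfold DpH
        simp
      smul_mem' := by
        rintro c f ⟨φ, hφ, hf⟩
        refine ⟨fun t => c * φ t, hφ.smul c, fun z => ?_⟩
        rw [ContinuousMap.smul_apply, hf, gradT_smul hφ]
        unfold DpH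
        rw [map_smul] }
  have hL : ∀ f ∈ L, ¬ ∀ z, 0 < f z := by
    rintro f ⟨φ, hφ, hf⟩ hpos
    obtain ⟨x, p, h1, h2, h3, h4⟩ := key hH hA1 hA2 hv hw hφ
    have h5 := hpos ⟨(x, p), h1, h2, h3⟩
    rw [hf] at h5
    simp only at h5
    linarith
  obtain ⟨μ₀, hprob, hint⟩ := sep_measure L hL
  have hmeas : Measurable (Subtype.val : Sig H v w → T n × E n) := measurable_subtype_coe
  have hcontval : Continuous (Subtype.val : Sig H v w → T n × E n) := continuous_subtype_val
  set μ : Measure (T n × E n) := μ₀.map Subtype.val with hμ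
  -- integrals of continuous functions
  have hI : ∀ F : T n × E n → ℝ, Continuous F → Integrable F μ ∧ ∫ z, F z ∂μ =
      ∫ z : Sig H v w, F z.1 ∂μ₀ := by
    intro F hF
    have h1 : AEStronglyMeasurable F (μ₀.map (Subtype.val : Sig H v w → T n × E n)) :=
      hF.aestronglyMeasurable
    constructor
    · rw [hμ, integrable_map_measure h1 hmeas.aemeasurable]
      exact (hF.comp hcontval).integrable_of_hasCompactSupport
        (HasCompactSupport.of_compactSpace _)
    · rw [hμ, integral_map hmeas.aemeasurable h1]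
  have hact : Continuous fun z : T n × E n => DpH H z.1 z.2 z.2 :=
    hDc.comp (by fun_prop : Continuous fun z : T n × E n => (z.1, (z.2, z.2)))
  have hclo : ∀ φ : T n → ℝ, TorusC2 φ →
      Continuous fun z : T n × E n => DpH H z.1 z.2 (gradT φ z.1) := by
    intro φ hφ
    have hg := continuous_gradT hφ
    exact hDc.comp (by fun_prop : Continuous fun z : T n × E n => (z.1, (z.2, gradT φ z.1)))
  refine ⟨μ, ⟨?_, ?_, (hI _ hact).1, ?_, fun φ hφ => (hI _ (hclo φ hφ)).1, ?_⟩, ?_⟩
  · exact Measure.isProbabilityMeasure_map hmeas.aemeasurable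
  · rw [hμ, ae_map_iff hmeas.aemeasurable
      (isClosed_eq hHc continuous_const).measurableSet]
    exact Eventually.of_forall fun z => z.2.2.1
  · rw [(hI _ hact).2]
    have : (fun z : Sig H v w => DpH H z.1.1 z.1.2 z.1.2) = fun _ => 0 := by
      funext z; exact z.2.2.2
    rw [this]; simp
  · intro φ hφ
    rw [(hI _ (hclo φ hφ)).2]
    let f : C(Sig H v w, ℝ) := ⟨fun z => DpH H z.1.1 z.1.2 (gradT φ z.1.1),
      (hclo φ hφ).comp hcontval⟩
    exact hint f ⟨φ, hφ, fun z => rfl⟩
  · refine Measure.support_subset_of_isClosed hcl ?_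
    rw [hμ, mem_ae_iff, Measure.map_apply hmeas hcl.measurableSet.compl]
    have : (Subtype.val : Sig H v w → T n × E n) ⁻¹' (Sig H v w)ᶜ = ∅ := by
      ext z; simp
    rw [this]; simp

/-- Comparison principle: the projected Mather set is a comparison set. -/
theorem comparison {H : T n → E n → ℝ} (hH : HamC2 H) (hA1 : A1 H) (hA2 : A2 H)
    {v w : T n → ℝ} (hv : IsSub H 0 v) (hw : IsSuper H 0 w)
    (hle : ∀ x ∈ projMather H 0, v x ≤ w x) (x : T n) : v x ≤ w x := by
  obtain ⟨μ, hμ, hsupp⟩ := exists_mather hH hA1 hA2 hv hw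
  haveI := hμ.prob
  obtain ⟨z, hz⟩ := Measure.nonempty_support (μ := μ) (IsProbabilityMeasure.ne_zero μ)
  have h1 := (hsupp hz).1 x
  have h2 : z.1 ∈ projMather H 0 := by
    apply subset_closure
    simp only [mem_iUnion]
    exact ⟨μ, hμ, z, hz, rfl⟩
  have h3 := hle _ h2
  linarith

end Pool.Agent.R194.MM
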